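import Pool.Agent.H973R2.Exp3

/-!
Critical bond percolation on the square lattice: the one-arm probability is of order `n ^ (-1/3)`
in every half-plane, uniformly in the direction, and of order `n ^ (-2/3)` in the quarter-plane.
-/

namespace Pool.Agent.Results.MP_35f495_pr.BoundaryArms

open Finset

/-- Vertices of the square lattice. -/
abbrev Vertex := ℤ × ℤ

/-- Edges: `(x, y, true)` joins `(x, y)` to `(x + 1, y)` and `(x, y, false)` joins `(x, y)` to
`(x, y + 1)`. -/
abbrev Edge := ℤ × ℤ × Bool

/-- First endpoint of an edge. -/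
def src (e : Edge) : Vertex := (e.1, e.2.1)

/-- Second endpoint of an edge. -/
def tgt (e : Edge) : Vertex := if e.2.2 then (e.1 + 1, e.2.1) else (e.1, e.2.1 + 1)

/-- `u` and `v` are joined by an edge of `F`. -/
def Adj (F : Set Edge) (u v : Vertex) : Prop :=
  ∃ e ∈ F, (src e = u ∧ tgt e = v) ∨ (src e = v ∧ tgt e = u)

/-- `u` and `v` are joined by a path of edges of `F`. -/
def Conn (F : Set Edge) (u v : Vertex) : Prop := Relation.ReflTransGen (Adj F) u v

/-- The edges of the square lattice with both endpoints in `T`. -/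
def edges (T : Finset Vertex) : Finset Edge :=
  (T.image (fun v => ((v.1, v.2, true) : Edge)) ∪ T.image (fun v => ((v.1, v.2, false) : Edge))).filter
    (fun e => tgt e ∈ T)

open Classical in
/-- The one-arm probability inside `T`: the probability, when every edge of `T` is open with
probability `1 / 2` independently, that the origin is connected inside `T` to a vertex at
sup-distance `n`; that is, the proportion of the sets `F` of edges of `T` with this property. -/
noncomputable def arm (T : Finset Vertex) (n : ℕ) : ℝ :=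
  (((edges T).powerset.filter (fun F : Finset Edge =>
    ∃ y ∈ T, max |y.1| |y.2| = (n : ℤ) ∧ Conn (↑F : Set Edge) (0, 0) y)).card : ℝ) /
    2 ^ (edges T).card

/-- The part of the quarter-plane at sup-distance at most `n` from the origin. -/
noncomputable def quarter (n : ℕ) : Finset Vertex :=
  Finset.Icc (0 : ℤ) n ×ˢ Finset.Icc (0 : ℤ) n

open Classical in
/-- The part of the half-plane `a x + b y ≤ 0` at sup-distance at most `n` from the origin. -/
noncomputable def halfPlane (a b : ℝ) (n : ℕ) : Finset Vertex :=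
  (Finset.Icc (-(n : ℤ)) n ×ˢ Finset.Icc (-(n : ℤ)) n).filter
    (fun y => a * (y.1 : ℝ) + b * (y.2 : ℝ) ≤ 0)

theorem arm_eq {T : Finset Vertex} {n : ℕ} (hT : T ⊆ H973.BX (0, 0) n) :
    arm T n = H973.armP T n := by
  unfold arm H973.armP H974.Pr
  rw [H973.Ex_half]
  have h1 : edges T = H973.ES T := rfl
  rw [h1, Finset.card_filter]
  push_cast
  rw [div_eq_mul_inv, mul_comm]
  congr 1
  · rw [one_div, inv_pow]
  · apply Finset.sum_congr rfl
    intro F _
    have h2 : (∃ y ∈ T, max |y.1| |y.2| = (n : ℤ) ∧ Conn (↑F : Set Edge) (0, 0) y) ↔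
        H973.armC T (0, 0) n F := by
      constructor
      · rintro ⟨y, hy, h3, h4⟩
        refine ⟨y, hy, ?_, h4⟩
        unfold H973.onBX
        simp only [zero_sub, zero_add]
        rcases max_choice |y.1| |y.2| with h5 | h5
        · rw [h5] at h3
          rcases abs_choice y.1 with h6 | h6 <;> omega
        · rw [h5] at h3
          rcases abs_choice y.2 with h6 | h6 <;> omega
      · rintro ⟨y, hy, h3, h4⟩
        refine ⟨y, hy, ?_, h4⟩
        have h5 := H973.mem_BX.mp (hT hy)
        unfold H973.onBX at h3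
        simp only [zero_sub, zero_add] at h3 h5
        have h6 : |y.1| ≤ n := abs_le.mpr h5.1
        have h7 : |y.2| ≤ n := abs_le.mpr h5.2
        apply le_antisymm (max_le h6 h7)
        rcases h3 with h3 | h3 | h3 | h3
        · refine le_trans ?_ (le_max_left _ _)
          rw [h3, abs_neg]; exact le_abs_self _
        · refine le_trans ?_ (le_max_left _ _)
          rw [h3]; exact le_abs_self _
        · refine le_trans ?_ (le_max_right _ _)
          rw [h3, abs_neg]; exact le_abs_self _
        · refine le_trans ?_ (le_max_right _ _)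
          rw [h3]; exact le_abs_self _
    unfold H974.ind
    by_cases h5 : H973.armC T (0, 0) n F
    · rw [if_pos h5, if_pos (h2.mpr h5)]
    · rw [if_neg h5, if_neg (fun h => h5 (h2.mp h))]

theorem quarter_eq (n : ℕ) : arm (quarter n) n = H973.armP (H973.QT n) n := by
  apply arm_eq
  intro y hy
  have := H973.mem_QT.mp hy
  rw [H973.mem_BX]
  simp only
  omega

theorem half_eq (a b : ℝ) (n : ℕ) : arm (halfPlane a b n) n = H973.armP (H973.HB a b n) n := by
  have h1 : halfPlane a b n = H973.HB a b n := by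
    ext y
    rw [H973.mem_HB]
    unfold halfPlane
    rw [Finset.mem_filter, Finset.mem_product, Finset.mem_Icc, Finset.mem_Icc]
  rw [h1]
  apply arm_eq
  intro y hy
  have := (H973.mem_HB.mp hy).1
  rw [H973.mem_BX]
  simp only
  omega

/-- **Main theorem.** For critical bond percolation on `ℤ²`, the one-arm probability in the
quarter-plane is of order `n ^ (-2/3)` and the one-arm probability in every half-plane through the
origin is of order `n ^ (-1/3)`, uniformly in the direction of the half-plane. -/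
theorem result : ∃ c C : ℝ, 0 < c ∧ ∀ n : ℕ, 1 ≤ n →
    (c * (n : ℝ) ^ (-(2 / 3) : ℝ) ≤ arm (quarter n) n ∧
      arm (quarter n) n ≤ C * (n : ℝ) ^ (-(2 / 3) : ℝ)) ∧
    ∀ a b : ℝ, (a ≠ 0 ∨ b ≠ 0) →
      c * (n : ℝ) ^ (-(1 / 3) : ℝ) ≤ arm (halfPlane a b n) n ∧
        arm (halfPlane a b n) n ≤ C * (n : ℝ) ^ (-(1 / 3) : ℝ) := by
  obtain ⟨c, C, hc, _, h⟩ := H973.exponents
  refine ⟨c, C, hc, ?_⟩
  intro n hn
  have hn0 : (0 : ℝ) < n := by exact_mod_cast hn
  have key : ∀ (s x : ℝ), c ≤ (n : ℝ) ^ s * x → (n : ℝ) ^ s * x ≤ C →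
      c * (n : ℝ) ^ (-s) ≤ x ∧ x ≤ C * (n : ℝ) ^ (-s) := by
    intro s x h1 h2
    have hs : 0 < (n : ℝ) ^ s := Real.rpow_pos_of_pos hn0 s
    have hx : x = ((n : ℝ) ^ s * x) * (n : ℝ) ^ (-s) := by
      rw [Real.rpow_neg hn0.le]
      field_simp
    have hs' : 0 ≤ (n : ℝ) ^ (-s) := Real.rpow_nonneg hn0.le _
    constructor
    · rw [hx]
      exact mul_le_mul_of_nonneg_right h1 hs'
    · rw [hx]
      exact mul_le_mul_of_nonneg_right h2 hs'
  obtain ⟨⟨h1, h2⟩, h3⟩ := h n hn
  refine ⟨?_, ?_⟩
  · rw [quarter_eq]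
    exact key (2 / 3) _ h1 h2
  · intro a b hab
    obtain ⟨h4, h5⟩ := h3 a b hab
    rw [half_eq]
    exact key (1 / 3) _ h4 h5

end Pool.Agent.Results.MP_35f495_pr.BoundaryArms
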