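import Pool.Agent.H31C.Main
import Pool.Agent.H863R4.Package
import Pool.Agent.H980R4.Rect

/-!
Critical bond percolation on `ℤ²` (`p = 1/2`): Cardy's formula, for every cross-ratio, in the slit
strips, together with their conformal maps, with an explicit rate of convergence, also in slit
rectangles (bounded domains) up to an explicit error which is exponentially small in the height.

Coordinates: the vertex `(u,v)` of `ℤ²` at mesh `δ` sits at `X + iY`, `X = δ (u - v)`,
`Y = δ (u + v)` (rotation by 45 degrees).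
-/

namespace Pool.Agent.Results.MP_35f495_pr.CardySlitStrip

open MeasureTheory Filter Topology Set

/-- edges of `ℤ²`: `(u,v,false)` joins `(u,v)` and `(u+1,v)`; `(u,v,true)` joins `(u,v)` and
`(u,v+1)`. -/
abbrev Edge := ℤ × ℤ × Bool

/-- configurations (`true` = open) -/
abbrev Conf := Edge → Bool

/-- `x` and `y` are the two ends of an open edge -/
def OpenAdj (ω : Conf) (x y : ℤ × ℤ) : Prop :=
  (y = (x.1 + 1, x.2) ∧ ω (x.1, x.2, false) = true) ∨
  (x = (y.1 + 1, y.2) ∧ ω (y.1, y.2, false) = true) ∨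
  (y = (x.1, x.2 + 1) ∧ ω (x.1, x.2, true) = true) ∨
  (x = (y.1, y.2 + 1) ∧ ω (y.1, y.2, true) = true)

/-- bond percolation at `p = 1/2`: independent fair coins on the edges -/
noncomputable def perc : Measure Conf :=
  Measure.infinitePi (fun _ : Edge => (PMF.uniformOfFintype Bool).toMeasure)

/-- The column of the vertex `(u,v)` is `u - v`, its height is `u + v`. Open edges of the slit
strip: both ends have their column in `[-a, b+1]`; the edges between the columns `0` and `1` with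
both ends at height `≥ 0` (those which cross the slit) are removed. -/
def SAdj (a b : ℕ) (ω : Conf) (x y : ℤ × ℤ) : Prop :=
  OpenAdj ω x y ∧ -(a:ℤ) ≤ x.1 - x.2 ∧ x.1 - x.2 ≤ b + 1 ∧ -(a:ℤ) ≤ y.1 - y.2 ∧ y.1 - y.2 ≤ b + 1 ∧
    ¬ (0 ≤ x.1 + x.2 ∧ 0 ≤ y.1 + y.2 ∧
      ((x.1 - x.2 ≤ 0 ∧ 0 < y.1 - y.2) ∨ (y.1 - y.2 ≤ 0 ∧ 0 < x.1 - x.2)))

/-- There is an open path of the slit strip from a vertex of the left bank of the slit
(column `0`, height `≥ 0`) to a vertex of the right side of the strip (column `b+1`). -/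
def Cross (a b : ℕ) : Set Conf :=
  {ω | ∃ x y : ℤ × ℤ, x.1 - x.2 = 0 ∧ 0 ≤ x.1 + x.2 ∧ y.1 - y.2 = b + 1 ∧
    Relation.ReflTransGen (SAdj a b ω) x y}

/-- There is an open path of the slit rectangle (heights in `[-H,H]`) from a vertex of the left bank
of the slit to a vertex of the right side. -/
def CrossH (a b H : ℕ) : Set Conf :=
  {ω | ∃ x y : ℤ × ℤ, x.1 - x.2 = 0 ∧ 0 ≤ x.1 + x.2 ∧ x.1 + x.2 ≤ H ∧ y.1 - y.2 = b + 1 ∧
    Relation.ReflTransGen (fun p r => SAdj a b ω p r ∧ |p.1 + p.2| ≤ H ∧ |r.1 + r.2| ≤ H) x y}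

/-- Cardy's function: the normalised primitive of `(t(1-t))^(-2/3)` -/
noncomputable def cardy (x : ℝ) : ℝ :=
  (∫ t in (0:ℝ)..x, (t*(1-t))^(-(2:ℝ)/3)) / ∫ t in (0:ℝ)..1, (t*(1-t))^(-(2:ℝ)/3)

/-- the slit strip `{-α < X < β} \ {X = 0, Y ≥ 0}` -/
def Dom (α β : ℝ) : Set ℂ := {w | -α < w.re ∧ w.re < β ∧ (w.re = 0 → w.im < 0)}

/-- `f` is an orientation reversing conformal map of the upper half-plane onto the slit strip, with
the boundary correspondence: left wall, left bank of the slit, tip, right bank, right wall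
= `(-∞,0)`, `(0,x)`, `x`, `(x,1)`, `(1,∞)`. -/
structure Uniformizes (α β x : ℝ) (f : ℂ → ℂ) : Prop where
  /-- the complex conjugate of `f` is holomorphic in the upper half-plane -/
  holo : DifferentiableOn ℂ (fun z => (starRingEnd ℂ) (f z)) {z | 0 < z.im}
  /-- `f` is a bijection of the upper half-plane onto the slit strip -/
  bij : BijOn f {z | 0 < z.im} (Dom α β)
  /-- `f` is continuous up to the boundary (without `0`, `1`) -/
  cont : ContinuousOn f {z : ℂ | 0 ≤ z.im ∧ z ≠ 0 ∧ z ≠ 1}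
  /-- `(-∞,0)` is mapped to the left wall -/
  leftWall : BijOn (fun t : ℝ => f t) (Iio 0) {w | w.re = -α}
  /-- `(1,∞)` is mapped to the right wall -/
  rightWall : BijOn (fun t : ℝ => f t) (Ioi 1) {w | w.re = β}
  /-- `(0,x)` is mapped to the left bank of the slit -/
  leftBank : BijOn (fun t : ℝ => f t) (Ioo 0 x) {w | w.re = 0 ∧ 0 < w.im}
  leftBank' : ∀ t ∈ Ioo 0 x, ∀ᶠ z in 𝓝[{z : ℂ | 0 < z.im}] (t : ℂ), (f z).re < 0
  /-- `(x,1)` is mapped to the right bank of the slit -/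
  rightBank : BijOn (fun t : ℝ => f t) (Ioo x 1) {w | w.re = 0 ∧ 0 < w.im}
  rightBank' : ∀ t ∈ Ioo x 1, ∀ᶠ z in 𝓝[{z : ℂ | 0 < z.im}] (t : ℂ), 0 < (f z).re
  /-- `x` is mapped to the tip of the slit -/
  tip : f (x : ℂ) = 0

/-- Cardy's formula in the slit strips and slit rectangles. `α, β > 0` are the distances of the slit
to the two walls, the conformal cross-ratio of (left bank, right wall) is `x = α/(α+β)`.
(1) the conformal map of the domain; (2) the crossing probability tends to `cardy x` as the mesh `δ`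
tends to `0`; (3) rate of convergence in the slit strip, for all integers `a, b ≥ 1`; (4) slit
rectangles. -/
theorem result :
    (∀ α β : ℝ, 0 < α → 0 < β →
      (∃ f : ℂ → ℂ, Uniformizes α β (α / (α + β)) f) ∧
      ∀ (δ : ℕ → ℝ) (a b : ℕ → ℕ), (∀ n, 0 < δ n) → Tendsto δ atTop (𝓝 0) →
        Tendsto (fun n => δ n * a n) atTop (𝓝 α) → Tendsto (fun n => δ n * b n) atTop (𝓝 β) →
        Tendsto (fun n => perc.real (Cross (a n) (b n))) atTop (𝓝 (cardy (α / (α + β))))) ∧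
    (∀ a b : ℕ, 1 ≤ a → 1 ≤ b →
      |perc.real (Cross a b) - cardy ((a:ℝ) / (a + b))| ≤
        60 * ((min a b : ℕ) : ℝ) ^ (-(2/3) : ℝ) * ((a:ℝ) + b) ^ (-(1/3) : ℝ)) ∧
    (∀ a b H : ℕ, 1 ≤ a → 1 ≤ b →
      |perc.real (CrossH a b H) - cardy ((a:ℝ) / (a + b))| ≤
        60 * ((min a b : ℕ) : ℝ) ^ (-(2/3) : ℝ) * ((a:ℝ) + b) ^ (-(1/3) : ℝ) +
        2 * (1 - (1/2 : ℝ)^188)^(H / (100 * (a + b + 1)))) := by
  refine ⟨fun α β hα hβ => ?_, fun a b ha hb => ?_, fun a b H ha hb => ?_⟩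
  · obtain ⟨⟨f, hf⟩, h⟩ := Pool.Agent.H863R4.cardy_slit Pool.Agent.H31C.exact_cardy
      Pool.Agent.H31C.limit_cardy hα hβ
    exact ⟨⟨f, ⟨hf.holo, hf.bij, hf.cont, hf.leftWall, hf.rightWall, hf.leftBank, hf.leftBank',
      hf.rightBank, hf.rightBank', hf.tip⟩⟩, h⟩
  · exact Pool.Agent.H980R4.Rate.cross_rate Pool.Agent.H31C.exact_cardy ha hb
  · exact Pool.Agent.H980R4.Rect.rect_rate Pool.Agent.H31C.exact_cardy ha hb H

end Pool.Agent.Results.MP_35f495_pr.CardySlitStrip
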