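import Pool.Agent.H980R2.Unif.Main2

/-!
Critical bond percolation on `ℤ²` (`p = 1/2`): the expected number of open clusters crossing a
(rotated) rectangle from side to side is `(√3/4) · length/width + O(1)`, uniformly: the law
predicted by Cardy from conformal invariance.
-/

namespace Pool.Agent.Results.MP_35f495_pr.CrossingClusters

open MeasureTheory Filter Topology Finset

/-- edges of `ℤ²`: `(u,v,false)` joins `(u,v)` and `(u+1,v)`; `(u,v,true)` joins `(u,v)` and
`(u,v+1)`. -/
abbrev Edge := ℤ × ℤ × Bool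

/-- configurations (`true` = open) -/
abbrev Conf := Edge → Bool

/-- `a` and `b` are the two ends of an open edge -/
def OpenAdj (ω : Conf) (a b : ℤ × ℤ) : Prop :=
  (b = (a.1 + 1, a.2) ∧ ω (a.1, a.2, false) = true) ∨
  (a = (b.1 + 1, b.2) ∧ ω (b.1, b.2, false) = true) ∨
  (b = (a.1, a.2 + 1) ∧ ω (a.1, a.2, true) = true) ∨
  (a = (b.1, b.2 + 1) ∧ ω (b.1, b.2, true) = true)

/-- bond percolation at `p = 1/2`: independent fair coins on the edges -/
noncomputable def perc : Measure Conf :=
  Measure.infinitePi (fun _ : Edge => (PMF.uniformOfFintype Bool).toMeasure)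

/-- the rotated rectangle `0 ≤ u - v ≤ N`, `1 ≤ u + v ≤ K + 1` (width `N/√2`, length `K/√2`) -/
def Rect (N K : ℕ) : Set (ℤ × ℤ) :=
  {p | 0 ≤ p.1 - p.2 ∧ p.1 - p.2 ≤ N ∧ 1 ≤ p.1 + p.2 ∧ p.1 + p.2 ≤ K + 1}

/-- the open cluster of `a` inside the rectangle -/
def cluster (N K : ℕ) (ω : Conf) (a : ℤ × ℤ) : Set (ℤ × ℤ) :=
  {b | Relation.ReflTransGen (fun x y => OpenAdj ω x y ∧ x ∈ Rect N K ∧ y ∈ Rect N K) a b}

/-- the open clusters of the rectangle which meet both the side `u - v = 0` and the side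
`u - v = N` -/
def crossing (N K : ℕ) (ω : Conf) : Set (Set (ℤ × ℤ)) :=
  {C | ∃ a ∈ Rect N K, a.1 - a.2 = 0 ∧ C = cluster N K ω a ∧ ∃ b ∈ C, b.1 - b.2 = N}

/-- the expected number of crossing clusters -/
noncomputable def expectedCrossing (N K : ℕ) : ℝ := ∫ ω, ((crossing N K ω).ncard : ℝ) ∂perc

/-- There is a constant `A` such that for all widths `N ≥ 1` and all lengths `K`, the expected
number of crossing clusters of the rectangle is `(√3/4)(K/N)` up to `A (1 + K/N²)`.  In particular
the error is bounded for all rectangles of aspect ratio `K/N ≤ N`. -/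
theorem result : ∃ A : ℝ, ∀ N K : ℕ, 1 ≤ N →
    |expectedCrossing N K - Real.sqrt 3 / 4 * (K / N)| ≤ A * (1 + K / (N:ℝ)^2) :=
  Pool.Agent.H980R2.Unif.main_all

end Pool.Agent.Results.MP_35f495_pr.CrossingClusters
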