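import Pool.Agent.H160R2.LE.Fin
import Pool.Agent.H160R2.MU.All

/-!
# All even arm exponents of critical bond percolation on the square lattice

Exact probability and exponent of the `2 k` leg event on the infinite cylinder, for every `k`; the
exponent of the `2 k` arm event of the plane around a slit, for every `k ≥ 2`; and the corresponding
lower bound for crossing clusters of annuli.
-/

set_option autoImplicit false

namespace Pool.Agent.Results.MP_35f495_pr.EvenArms

open MeasureTheory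

/-! ### The cylinder -/

/-- One fair coin for every unit square of `ℤ × ℤ`. -/
noncomputable def coins : Measure (ℤ × ℤ → Bool) :=
  Measure.infinitePi (fun _ => ProbabilityTheory.bernoulliMeasure true false
    ⟨1/2, by norm_num, by norm_num⟩)

/-- The unit square with lower left corner `(j, t)` contains one of its diagonals: the one from
`(j, t)` if the coin is `false`, the one from `(j + 1, t)` if it is `true` (the diagonals are
periodic with period `2 n` in the direction of `j`).  The strip is cut along the slits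
`2 n s < j < 2 n s + k`, `t = 0`: every point `(j, 0)` has a lower copy (`false`) and an upper copy
(`true`), joined unless it is inside a slit. -/
inductive Link (n k : ℕ) (ω : ℤ × ℤ → Bool) : (ℤ × ℤ) × Bool → (ℤ × ℤ) × Bool → Prop
  | rise (j t : ℤ) : ω (j % (2 * n : ℕ), t) = false →
      Link n k ω ((j, t), decide (0 ≤ t)) ((j + 1, t + 1), decide (0 ≤ t))
  | fall (j t : ℤ) : ω (j % (2 * n : ℕ), t) = true →
      Link n k ω ((j + 1, t), decide (0 ≤ t)) ((j, t + 1), decide (0 ≤ t))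
  | glue (j : ℤ) : (∀ s : ℤ, ¬ (s * (2 * n : ℕ) < j ∧ j < s * (2 * n : ℕ) + k)) →
      Link n k ω ((j, 0), false) ((j, 0), true)

/-- The `c`-th of the `2 k` sectors around the slit number `s`. -/
def sector (n k : ℕ) (s : ℤ) (c : ℕ) : (ℤ × ℤ) × Bool :=
  if c ≤ k then ((s * (2 * n : ℕ) + c, 0), false) else ((s * (2 * n : ℕ) + (2 * k - c), 0), true)

/-- The `2 k` sectors of a slit are pairwise not connected, and each of them is connected to a
sector of another slit. -/
def LegEvent (n k : ℕ) (ω : ℤ × ℤ → Bool) : Prop :=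
  (∀ c d : ℕ, c < 2 * k → d < 2 * k → c ≠ d →
    ¬ Relation.EqvGen (Link n k ω) (sector n k 0 c) (sector n k 0 d)) ∧
  (∀ c : ℕ, c < 2 * k → ∃ s : ℤ, s ≠ 0 ∧ ∃ d : ℕ, d < 2 * k ∧
    Relation.EqvGen (Link n k ω) (sector n k 0 c) (sector n k s d))

/-- `|det (δ_ij + w binom(l + i + j, j))|`, `0 ≤ i, j < N`. -/
noncomputable def andrews (N l : ℕ) (w : ℂ) : ℝ :=
  ‖(Matrix.of fun i j : Fin N =>
    (if i = j then 1 else 0) + w * ((l + i.val + j.val).choose j.val : ℂ)).det‖

/-! ### The plane -/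

/-- The square lattice: two points of `ℤ²` are adjacent when they differ by one in exactly one
coordinate. -/
def Z2 : SimpleGraph (ℤ × ℤ) where
  Adj u v := |u.1 - v.1| + |u.2 - v.2| = 1
  symm := ⟨fun u v h => by rw [abs_sub_comm v.1, abs_sub_comm v.2]; exact h⟩
  loopless := ⟨fun u h => by simp at h⟩

/-- Critical bond percolation: every edge of the square lattice is open (`true`) with
probability `1/2`, independently of the other edges. -/
noncomputable def crit : Measure (Z2.edgeSet → Bool) :=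
  Measure.infinitePi (fun _ => ProbabilityTheory.bernoulliMeasure true false
    ⟨1/2, by norm_num, by norm_num⟩)

/-- The graph of the open edges with both ends in the annulus `k ≤ max (|x|, |y|) ≤ n`. -/
def annGraph (k n : ℕ) (ω : Z2.edgeSet → Bool) : SimpleGraph (ℤ × ℤ) :=
  SimpleGraph.fromEdgeSet {e | (∃ h : e ∈ Z2.edgeSet, ω ⟨e, h⟩ = true) ∧
    ∀ v ∈ e, (k : ℤ) ≤ max |v.1| |v.2| ∧ max |v.1| |v.2| ≤ n}

/-- `k` different open clusters of the annulus `k ≤ max (|x|, |y|) ≤ n` join its two boundaries. -/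
def Clusters (k n : ℕ) (ω : Z2.edgeSet → Bool) : Prop :=
  ∃ x : Fin k → ℤ × ℤ, (∀ i, max |(x i).1| |(x i).2| = k ∧ ∃ y : ℤ × ℤ, max |y.1| |y.2| = n ∧
    (annGraph k n ω).Reachable (x i) y) ∧ ∀ i j, i ≠ j → ¬ (annGraph k n ω).Reachable (x i) (x j)

/-- The open edges of the box `max (|x|, |y|) ≤ n`, cut along the slit: every vertex `v` has a copy
`(v, false)`, end of the edges above the diagonal, and a copy `(v, true)`, end of the edges below the
diagonal; the two copies are joined unless `v = (i, i)` with `0 < 2 i < k`. -/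
inductive Cut (k n : ℕ) (ω : Z2.edgeSet → Bool) : (ℤ × ℤ) × Bool → (ℤ × ℤ) × Bool → Prop
  | edge (u v : ℤ × ℤ) (h : s(u, v) ∈ Z2.edgeSet) : ω ⟨s(u, v), h⟩ = true →
      max |u.1| |u.2| ≤ n → max |v.1| |v.2| ≤ n →
      Cut k n ω (u, decide (0 < (u.1 - u.2) + (v.1 - v.2))) (v, decide (0 < (u.1 - u.2) + (v.1 - v.2)))
  | join (v : ℤ × ℤ) : max |v.1| |v.2| ≤ n → ¬ (v.1 = v.2 ∧ 0 < 2 * v.1 ∧ 2 * v.1 < k) →
      Cut k n ω (v, false) (v, true)

/-- The `k` vertices around the slit: number `i`, `i < 2 k` even. -/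
def tip (k i : ℕ) : (ℤ × ℤ) × Bool :=
  if i ≤ k then (((i / 2 : ℕ), (i / 2 : ℕ)), false)
  else ((((2 * k - i) / 2 : ℕ), ((2 * k - i) / 2 : ℕ)), true)

/-- The `k` vertices around the slit are in different open clusters, each of which reaches the
boundary of the box (so there are `k` open arms, separated by `k` dual closed arms). -/
def SlitArms (k n : ℕ) (ω : Z2.edgeSet → Bool) : Prop :=
  (∀ i j : ℕ, i < 2 * k → j < 2 * k → i % 2 = 0 → j % 2 = 0 → i ≠ j →
    ¬ Relation.EqvGen (Cut k n ω) (tip k i) (tip k j)) ∧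
  (∀ i : ℕ, i < 2 * k → i % 2 = 0 → ∃ (y : ℤ × ℤ) (β : Bool), max |y.1| |y.2| = n ∧
    Relation.EqvGen (Cut k n ω) (tip k i) (y, β))

theorem slit_eq (k n : ℕ) (ω : Z2.edgeSet → Bool) :
    SlitArms k n ω = Pool.Agent.H160R2.MU.TFIN.SlitArms k n ω := by
  have hC : Cut k n ω = Pool.Agent.H160R2.MU.TFIN.Cut k n ω := by
    funext x y
    apply propext
    constructor
    · intro h
      cases h with
      | edge u v h1 h2 h3 h4 => exact Pool.Agent.H160R2.MU.TFIN.Cut.edge u v h1 h2 h3 h4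
      | join v h1 h2 => exact Pool.Agent.H160R2.MU.TFIN.Cut.join v h1 h2
    · intro h
      cases h with
      | edge u v h1 h2 h3 h4 => exact Cut.edge u v h1 h2 h3 h4
      | join v h1 h2 => exact Cut.join v h1 h2
  unfold SlitArms Pool.Agent.H160R2.MU.TFIN.SlitArms
  rw [hC]
  rfl

/-- **All even arm exponents.** -/
theorem result :
    (∀ n k : ℕ, 1 ≤ n → 1 ≤ k → k ≤ 2 * n →
      coins.real {ω | LegEvent n k ω} * andrews (2 * n) 0 (Complex.exp (Real.pi / 3 * Complex.I))
        = andrews (2 * n - k) (2 * k) 1) ∧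
    (∀ k : ℕ, 1 ≤ k → ∃ c C : ℝ, 0 < c ∧ 0 < C ∧ ∀ n : ℕ, k ≤ n →
      c * (n : ℝ) ^ (-((4 * (k : ℝ) ^ 2 - 1) / 12)) ≤ coins.real {ω | LegEvent n k ω} ∧
      coins.real {ω | LegEvent n k ω} ≤ C * (n : ℝ) ^ (-((4 * (k : ℝ) ^ 2 - 1) / 12))) ∧
    (∀ k : ℕ, 1 ≤ k → ∃ c : ℝ, 0 < c ∧ ∀ n : ℕ, k ≤ n →
      c * (n : ℝ) ^ (-((4 * (k : ℝ) ^ 2 - 1) / 12)) ≤ crit.real {ω | Clusters k n ω}) ∧
    (∀ k : ℕ, 2 ≤ k → ∃ c C : ℝ, 0 < c ∧ 0 < C ∧ ∀ n : ℕ, k ≤ n →
      c * (n : ℝ) ^ (-((4 * (k : ℝ) ^ 2 - 1) / 12)) ≤ crit.real {ω | SlitArms k n ω} ∧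
      crit.real {ω | SlitArms k n ω} ≤ C * (n : ℝ) ^ (-((4 * (k : ℝ) ^ 2 - 1) / 12))) := by
  have hsec : ∀ (n k : ℕ) (ω : ℤ × ℤ → Bool),
      LegEvent n k ω ↔ Pool.Agent.H160R2.LE.LegEvent n k ω := by
    intro n k ω
    have hL : Link n k ω = Pool.Agent.H160R2.LE.Link n k ω := by
      funext x y
      apply propext
      constructor
      · intro h
        cases h with
        | rise j t h => exact Pool.Agent.H160R2.LE.Link.rise j t h
        | fall j t h => exact Pool.Agent.H160R2.LE.Link.fall j t h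
        | glue j h => exact Pool.Agent.H160R2.LE.Link.glue j h
      · intro h
        cases h with
        | rise j t h => exact Link.rise j t h
        | fall j t h => exact Link.fall j t h
        | glue j h => exact Link.glue j h
    unfold LegEvent Pool.Agent.H160R2.LE.LegEvent
    rw [hL]
    rfl
  have hset : ∀ n k : ℕ, {ω | LegEvent n k ω} = {ω | Pool.Agent.H160R2.LE.LegEvent n k ω} := by
    intro n k
    ext ω
    exact hsec n k ω
  obtain ⟨h1, h2⟩ := Pool.Agent.H160R2.LE.a_X8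
  refine ⟨fun n k hn hk hkn => ?_, fun k hk => ?_, fun k hk =>
    Pool.Agent.H160R2.ML.t_FIN Pool.Agent.H160R2.ML.a_PL k hk, fun k hk => ?_⟩
  · have h := h1 n k hn hk hkn
    rw [Pool.Agent.H160R2.LE.RR_eq, Pool.Agent.H160R2.LE.RR_zero] at h
    rw [hset]
    have e1 : andrews (2 * n) 0 (Complex.exp (Real.pi / 3 * Complex.I)) =
        ‖(Matrix.of fun i j : Fin (2 * n) => (if i = j then 1 else 0) +
          Complex.exp (((Real.pi / 3 : ℝ) : ℂ) * Complex.I) *
            ((0 + i.val + j.val).choose j.val : ℂ)).det‖ := by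
      unfold andrews
      push_cast
      rfl
    have e2 : andrews (2 * n - k) (2 * k) 1 =
        ‖(Matrix.of fun i j : Fin (2 * n - k) => (if i = j then 1 else 0) +
          ((2 * k + i.val + j.val).choose j.val : ℂ)).det‖ := by
      unfold andrews
      simp only [one_mul]
    rw [e1, e2]
    exact h
  · obtain ⟨c, C, hc, hC, h⟩ := h2 k hk
    refine ⟨c, C, hc, hC, fun n hn => ?_⟩
    rw [hset]
    exact h n hn
  · obtain ⟨c, C, hc, hC, h⟩ :=
      Pool.Agent.H160R2.MU.t_FIN Pool.Agent.H160R2.MU.a_UB Pool.Agent.H160R2.MU.a_LB k hk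
    refine ⟨c, C, hc, hC, fun n hn => ?_⟩
    have e : {ω | SlitArms k n ω} = {ω | Pool.Agent.H160R2.MU.TFIN.SlitArms k n ω} := by
      ext ω
      exact (slit_eq k n ω).to_iff
    rw [e]
    exact h n hn

end Pool.Agent.Results.MP_35f495_pr.EvenArms
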